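import Pool.Agent.Helper607.Bases.Disproof

namespace Pool.Agent.Results.MP_356f69_al.Disproof

open Pool.Agent.Helper607.Bases

/-- There is an associative ring `R` with unit (mapping onto `ℚ`, so with invariant basis number)
such that the augmented complexes `⋯ → C_1 → C_0 → R^n → 0` are not highly acyclic: for every
`n ≥ 2` the homology in degree `p = 0` (tuples of size `q = 1`) is nonzero.  This holds both for
`C_p = ⊕_σ C_σ` over all tuples and for
`C_p = R GL_n(R) ⊗_{R GL_{n-(p+1)}(R)} R^{n-(p+1)}`. -/
theorem result : ∃ (R : Type) (_ : Ring R),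
    (∃ φ : R →+* ℚ, Function.Surjective φ) ∧
    (∀ n, 2 ≤ n → ¬ HomologyVanishes n (tupleChains R n) 1 ∧
      ¬ HomologyVanishes n (inducedChains R n) 1) ∧
    ¬ HighlyAcyclic (tupleChains R) ∧ ¬ HighlyAcyclic (inducedChains R) :=
  exists_ring_not_highlyAcyclic

end Pool.Agent.Results.MP_356f69_al.Disproof
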