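import Pool.Agent.Helper607.Bases.Acyclic

namespace Pool.Agent.Results.MP_356f69_al.PidCase

open Pool.Agent.Helper607.Bases Pool.Agent.Helper607.Cliques

universe u

/-- Positive cases.  (1) If `R` is an associative ring such that, for some fixed `c`, every column
and every row of length `c + g` can be brought by an invertible matrix to a form in which only the
first `c` entries are nonzero, then the complexes `⊕_σ C_σ` over all tuples are highly acyclic,
with homology vanishing in degree `q - 1` for `4 c q + 2 c + 1 ≤ n` (and `q + 1 ≤ n`).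
(2) If `R` is a principal ideal domain (for instance `ℤ`), this holds with `4 q + 3 ≤ n`, both for
`⊕_σ C_σ` over all tuples and for `R GL_n(R) ⊗_{R GL_{n-q}(R)} R^{n-q}`. -/
theorem result :
    (∀ (R : Type u) [Ring R] (c : ℕ), ColRed R c → RowRed R c →
      (∀ n q : ℕ, 4 * c * q + 2 * c + 1 ≤ n → q + 1 ≤ n → HomologyVanishes n (tupleChains R n) q) ∧
      HighlyAcyclic (tupleChains R)) ∧
    (∀ (R : Type u) [CommRing R] [IsDomain R] [IsPrincipalIdealRing R],
      (∀ n q : ℕ, 4 * q + 3 ≤ n →
        HomologyVanishes n (tupleChains R n) q ∧ HomologyVanishes n (inducedChains R n) q) ∧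
      HighlyAcyclic (tupleChains R) ∧ HighlyAcyclic (inducedChains R)) :=
  ⟨fun _ _ _ hcol hrow => ⟨fun _ _ h hq => tuple_vanishes hcol hrow h hq,
      tuple_highlyAcyclic hcol hrow⟩,
    fun _ _ _ _ => ⟨fun _ _ h => pid_vanishes h, pid_highlyAcyclic⟩⟩

end Pool.Agent.Results.MP_356f69_al.PidCase
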